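import Pool.Agent.W_a3c811_h62w.Ab26

/-! Hard Lefschetz for the cohomology, good primitive parts `(i, j)` with `i` and `j` positive, and for
every position `i` either a good primitive part `(i, 0)` (low positions) or weight monodromy in the
middle degree (high positions). -/

noncomputable section

set_option linter.unusedSectionVars false

namespace Pool.Agent.H62X

open Module Polynomial Pool.Agent.H79L

universe v w

variable {K : Type v} [Field K] [CharZero K] {E : Type w} [AddCommGroup E] [Module K E]
  [FiniteDimensional K E]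
  {N f L g d : Module.End K E} {n : ℤ} {s t : ℤ → Module.End K E}
  {P D : Finset ℤ} {S : E →ₗ[K] E →ₗ[K] K} {B : Subring (Module.End K E)}
  {Z : Module.End K E}

/-- The mixed theorem. -/
theorem thm12 (h : Pol N f L g d n s t P D S B) (hB : ∀ (r : ℚ), ∀ u ∈ B, (r : K) • u ∈ B)
    (hL : ∀ (p : ℤ) (m : ℕ), EI (L ^ m) d s t n p (-(m : ℤ)) p m) (i0 : ℕ)
    (hN : ∀ m : ℕ, i0 ≤ m → EI (N ^ m) d s t n (-(m : ℤ)) 0 m 0)
    (hG : ∀ i j, 1 ≤ i → (j = 0 → i < i0) → Gd N f L g d n s t S B i j)
    (hZ : Har N f L g d s t S B Z) : d * Z = 0 := by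
  classical
  have hb := h.bi
  have key : ∀ r : ℕ, ∀ Z, Har N f L g d s t S B Z →
      (∀ p : ℤ, p < -(r : ℤ) → ∀ w, ∀ x ∈ Hs s t n Z p w, x = 0) → d * Z = 0 := by
    intro r
    induction r with
    | zero =>
      intro Z hZ htop
      have ln := lbN h hZ
      refine d_zero_of h hZ fun i j x hx hzx => ?_
      have hx' : x ∈ Hs s t n Z (-(i : ℤ)) (-(j : ℤ)) := ⟨prim_at hb hx, hzx⟩
      rcases Nat.eq_zero_or_pos i with rfl | hi
      · have h1 := Hs.hd h hZ hx'
        have h2 : (-((0 : ℕ) : ℤ) + 1) = ((1 : ℕ) : ℤ) := by norm_num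
        rw [h2] at h1
        obtain ⟨y, hy, h3⟩ := ln.sur _ 1 _ h1
        rw [← h3, htop _ (by norm_num) _ _ hy, map_zero]
      · rw [htop _ (by push_cast; omega) _ _ hx', map_zero]
    | succ r ih =>
      intro Z hZ htop
      rcases Nat.lt_or_ge (r + 1) i0 with hr0 | hr0
      · have hrow := row h hZ hB hL (r := r + 1) (j0 := 0) (by omega) htop
          (fun j _ => hG _ _ (by omega) (fun _ => by omega))
          (fun _ j hj => hG _ _ (by omega) (fun h0 => by omega))
          (fun _ j _ => hG _ _ (by omega) (fun _ => by omega))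
        obtain ⟨b0, hb0⟩ := (lbL h hZ).low
        set A : Finset (ℕ × ℕ) := (Finset.range ((-b0).toNat + 1)).image fun j => (r + 1, j) with hA
        obtain ⟨e, he, hk⟩ := exists_isoPr' h hB A
        have hAr : ∀ i j, (i, j) ∈ A → i = r + 1 := by
          intro i j hij
          rw [hA, Finset.mem_image] at hij
          obtain ⟨j', -, h1⟩ := hij
          exact (congrArg Prod.fst h1).symm
        have hAm : ∀ j, 0 ≤ j → (∀ x ∈ prim f g n s t (r + 1) j, Z x = x → x = 0) ∨
            (r + 1, j) ∈ A := by
          intro j _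
          by_cases hj : j < (-b0).toNat + 1
          · right
            rw [hA, Finset.mem_image]
            exact ⟨j, Finset.mem_range.2 hj, rfl⟩
          · left
            intro x hx hzx
            exact hb0 (-((r + 1 : ℕ) : ℤ)) (-(j : ℤ)) (by omega) x ⟨prim_at hb hx, hzx⟩
        obtain ⟨hZ', h1⟩ := remove h hZ he hk (fun i j hij x hx hzx => by
          obtain rfl := hAr i j hij
          exact hrow j (Nat.zero_le _) x ⟨prim_at hb hx, hzx⟩)
        rw [h1]
        refine ih _ hZ' fun p hp w x hx => ?_
        rcases lt_or_ge p (-((r + 1 : ℕ) : ℤ)) with hp' | hp'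
        · exact htop p hp' w x (Hs_e hZ he hx).1
        · obtain rfl : p = -((r + 1 : ℕ) : ℤ) := by push_cast at hp' ⊢; omega
          have ht := top_e h hZ he (j0 := 0) htop hAm
          rcases Int.le_total w 0 with hw | hw
          · obtain ⟨m, hm⟩ := Int.eq_ofNat_of_zero_le (neg_nonneg.2 hw)
            obtain rfl : w = -(m : ℤ) := by omega
            exact ht m (Nat.zero_le _) x hx
          · obtain ⟨m, rfl⟩ := Int.eq_ofNat_of_zero_le hw
            obtain ⟨y, hy, rfl⟩ := (lbL h hZ').sur _ m x hx
            rw [ht m (Nat.zero_le _) y hy, map_zero]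
      · have hrow := row h hZ hB hL (r := r + 1) (j0 := 1) (by omega) htop
          (fun j hj => hG _ _ (by omega) (fun h0 => by omega))
          (fun _ j hj => hG _ _ (by omega) (fun h0 => by omega))
          (fun _ j hj => hG _ _ (by omega) (fun h0 => by omega))
        obtain ⟨b0, hb0⟩ := (lbL h hZ).low
        set A : Finset (ℕ × ℕ) :=
          (Finset.range ((-b0).toNat + 1)).image fun j => (r + 1, j + 1) with hA
        obtain ⟨e, he, hk⟩ := exists_isoPr' h hB A
        have hAr : ∀ i j, (i, j) ∈ A → i = r + 1 ∧ 1 ≤ j := by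
          intro i j hij
          rw [hA, Finset.mem_image] at hij
          obtain ⟨j', -, h1⟩ := hij
          have h2 := (congrArg Prod.fst h1).symm
          have h3 := (congrArg Prod.snd h1).symm
          exact ⟨h2, by simp only at h3; omega⟩
        have hAm : ∀ j, 1 ≤ j → (∀ x ∈ prim f g n s t (r + 1) j, Z x = x → x = 0) ∨
            (r + 1, j) ∈ A := by
          intro j hj1
          by_cases hj : j < (-b0).toNat + 1
          · right
            rw [hA, Finset.mem_image]
            exact ⟨j - 1, Finset.mem_range.2 (by omega), by rw [Nat.sub_add_cancel hj1]⟩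
          · left
            intro x hx hzx
            exact hb0 (-((r + 1 : ℕ) : ℤ)) (-(j : ℤ)) (by omega) x ⟨prim_at hb hx, hzx⟩
        obtain ⟨hZ', h1⟩ := remove h hZ he hk (fun i j hij x hx hzx => by
          obtain ⟨rfl, hj⟩ := hAr i j hij
          exact hrow j hj x ⟨prim_at hb hx, hzx⟩)
        rw [h1]
        -- the remaining weight `0` part
        have htop' : ∀ p : ℤ, p < -((r + 1 : ℕ) : ℤ) → ∀ w, ∀ x ∈ Hs s t n (e * Z) p w, x = 0 :=
          fun p hp w x hx => htop p hp w x (Hs_e hZ he hx).1
        have hw : ∀ w, w ≠ 0 → ∀ x ∈ Hs s t n (e * Z) (-((r + 1 : ℕ) : ℤ)) w, x = 0 := by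
          have ht := top_e h hZ he (j0 := 1) htop hAm
          intro w hw0 x hx
          rcases Int.le_total w 0 with hw | hw
          · obtain ⟨m, hm⟩ := Int.eq_ofNat_of_zero_le (neg_nonneg.2 hw)
            obtain rfl : w = -(m : ℤ) := by omega
            exact ht m (by omega) x hx
          · obtain ⟨m, rfl⟩ := Int.eq_ofNat_of_zero_le hw
            obtain ⟨y, hy, rfl⟩ := (lbL h hZ').sur _ m x hx
            rw [ht m (by omega) y hy, map_zero]
        have hrN := rowN h hZ' hL (hN (r + 1) (by omega)) htop' hw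
          (fun hr => hG _ _ hr (fun h0 => by omega))
        obtain ⟨e2, he2, hk2⟩ := exists_isoPr' h hB {(r + 1, 0)}
        obtain ⟨hZ2, h2⟩ := remove h hZ' he2 hk2 (fun i j hij x hx hzx => by
          rw [Finset.mem_singleton, Prod.mk.injEq] at hij
          obtain ⟨rfl, rfl⟩ := hij
          exact hrN x ⟨by simpa using prim_at hb hx, hzx⟩)
        rw [h2]
        refine ih _ hZ2 fun p hp w x hx => ?_
        rcases lt_or_ge p (-((r + 1 : ℕ) : ℤ)) with hp' | hp'
        · exact htop' p hp' w x (Hs_e hZ' he2 hx).1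
        · obtain rfl : p = -((r + 1 : ℕ) : ℤ) := by push_cast at hp' ⊢; omega
          by_cases hw0 : w = 0
          · subst hw0
            have ht := top_e h hZ' he2 (r := r + 1) (j0 := 0) htop' (fun j _ => ?_) 0 le_rfl x
              (by simpa using hx)
            · exact ht
            · rcases Nat.eq_zero_or_pos j with rfl | hj
              · exact Or.inr (Finset.mem_singleton_self _)
              · refine Or.inl fun x hx hzx => hw (-(j : ℤ)) (by omega) x ⟨prim_at hb hx, hzx⟩
          · exact hw w hw0 x (Hs_e hZ' he2 hx).1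
  obtain ⟨b, hb1⟩ := hb.sl.low
  exact key (-b).toNat Z hZ fun p hp w x hx => hb1 p (by omega) x hx.1.hs

end Pool.Agent.H62X
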