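import Pool.Agent.W_MP_a3c811_h79.MF.GdY
import Pool.Agent.W_MP_a3c811_h79.Mix.Thm
import Pool.Agent.W_a3c811_h62w.TrI

/-! The mixed theorem for the strata. -/

noncomputable section

set_option linter.unusedSectionVars false

namespace Pool.Agent.H62S

open Module Polynomial Pool.Agent.WeilH_h6 Pool.Agent.WeilH_h6.VarClass Pool.Agent.H62D
  Pool.Agent.H62A Pool.Agent.H79L Pool.Agent.H62X

universe u v w

variable {k : Type u} [Field k] {𝒱 : VarClass k} {I : Type} {K : I → Type v} [∀ l, Field (K l)]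
  [∀ l, CharZero (K l)] {W : ∀ l, Weil.{u, v, w} 𝒱 (K l)} {X : Strata W}

namespace Strata

/-- hard Lefschetz, weight monodromy in the middle degree from the position `i0` on, for one
theory -/
theorem all_T12 (hW : Compatible W) (X : Strata W) (hb : ∀ l l', X.betti l = X.betti l')
    (l0 : I) (hL : X.HardLefschetz l0) (i0 : ℕ) (hN : ∀ i : ℕ, i0 ≤ i → X.MonoAt l0 X.n i)
    {BY : Subring (Module.End (K l0) (Tot (W l0) X.Y))} (hY : X.YRing l0 BY)
    (hG : ∀ i j, 1 ≤ i → i + j ≤ X.n → (j = 0 → i < i0) →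
      Gd (K := K l0) (E := Tot (W l0) X.EY) (X.eN l0) (X.eNd l0) (X.eL l0) (X.eLam l0) (X.ed l0)
        X.n (posProj (W l0) X.EY X.epos) (degProj (W l0) X.EY X.epos X.etw) (X.eS l0)
        (X.bring l0 BY hY.pos) i j) (M : X.Motive) :
    (∀ l, M.WeightMonodromy l) ∧ M.Independence := by
  classical
  refine all_of_zero hW X hb l0 (fun P Q F => ?_) M
  obtain ⟨D, hP⟩ := hY.pol hW
  refine thm12 hP (fun r u hu => hY.rat_mem r hu) (fun p m => ei_lef (hL p m)) i0
    (fun m hm => ei_mono (w := 0) (by rw [zero_add]; exact hN m hm)) (fun i j hi hj => ?_)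
    (har_strata hY hW F)
  by_cases hij : i + j ≤ X.n
  · exact hG i j hi hij hj
  · exact gd_gt hY hW (not_le.1 hij)

end Strata

end Pool.Agent.H62S
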